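import Pool.Agent.Helper77.SD.St

/-! # Project SD, module MO1: mollification is a contraction of `L²` -/

set_option autoImplicit false

namespace Pool.Agent.Helper15.SD

open MeasureTheory Metric Set
open scoped Gradient RealInnerProductSpace ENNReal
open Pool.Agent.Helper77.SD

variable {d : ℕ}

theorem MO1_exists (φ : ContDiffBump (0 : E d)) {u : E d → ℝ} (hu : LocallyIntegrable u volume)
    (x : E d) : Integrable (fun t => φ.normed volume t • u (x - t)) volume :=
  (φ.hasCompactSupport_normed (μ := volume)).convolutionExists_left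
    (ContinuousLinearMap.lsmul ℝ ℝ) (φ.contDiff_normed (n := 0)).continuous hu x

theorem MO1_int (φ : ContDiffBump (0 : E d)) : Integrable (φ.normed volume) volume :=
  (φ.contDiff_normed (n := 0) (μ := volume)).continuous.integrable_of_hasCompactSupport
    φ.hasCompactSupport_normed

theorem MO1_jensen (φ : ContDiffBump (0 : E d)) {u : E d → ℝ} (hu : L2 u) (x : E d) :
    ‖convolution (φ.normed volume) u (ContinuousLinearMap.lsmul ℝ ℝ) volume x‖ ^ 2 ≤
      ∫ t, φ.normed volume t • ‖u (x - t)‖ ^ 2 := by
  have hu2 := integrable_sq hu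
  have i1 := MO1_exists φ hu2.locallyIntegrable x
  have i2 := MO1_exists φ (hu.locallyIntegrable (by norm_num)) x
  set c : ℝ := convolution (φ.normed volume) u (ContinuousLinearMap.lsmul ℝ ℝ) volume x with hc
  have hc2 : c = ∫ t, φ.normed volume t • u (x - t) := rfl
  have i3 := MO1_int φ
  have i4 : Integrable (fun t => 2 * c * (φ.normed volume t • u (x - t))) volume :=
    i2.const_mul _
  have hnn : 0 ≤ ∫ t, φ.normed volume t * (u (x - t) - c) ^ 2 :=
    integral_nonneg fun t => mul_nonneg (φ.nonneg_normed t) (sq_nonneg _)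
  have e : ∀ t, φ.normed volume t * (u (x - t) - c) ^ 2 =
      (φ.normed volume t • ‖u (x - t)‖ ^ 2 - 2 * c * (φ.normed volume t • u (x - t))) +
        φ.normed volume t * c ^ 2 := by
    intro t
    rw [Real.norm_eq_abs, sq_abs, smul_eq_mul, smul_eq_mul]
    ring
  simp_rw [e] at hnn
  have i5 : Integrable (fun t => φ.normed volume t • ‖u (x - t)‖ ^ 2 -
      2 * c * (φ.normed volume t • u (x - t))) volume := i1.sub i4
  rw [integral_add i5 (i3.mul_const _), integral_sub i1 i4, integral_const_mul,
    integral_mul_const, φ.integral_normed, ← hc2] at hnn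
  rw [Real.norm_eq_abs, sq_abs]
  nlinarith

theorem hMO1 : StMO1 := by
  intro d φ f hf
  have hcont : Continuous (convolution (φ.normed volume) f (ContinuousLinearMap.lsmul ℝ ℝ) volume) :=
    (φ.hasCompactSupport_normed (μ := volume)).continuous_convolution_left
      (ContinuousLinearMap.lsmul ℝ ℝ) (φ.contDiff_normed (n := 0)).continuous
      (hf.locallyIntegrable (by norm_num))
  have hf2 := integrable_sq hf
  have i3 := MO1_int φ
  have j1 : Integrable (fun x => ∫ t, φ.normed volume t • ‖f (x - t)‖ ^ 2) volume :=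
    i3.integrable_convolution (ContinuousLinearMap.lsmul ℝ ℝ) hf2
  have j2 : ∫ x, ∫ t, φ.normed volume t • ‖f (x - t)‖ ^ 2 = ∫ x, ‖f x‖ ^ 2 := by
    have := integral_convolution (μ := (volume : Measure (E d))) (ν := (volume : Measure (E d)))
      (ContinuousLinearMap.lsmul ℝ ℝ : ℝ →L[ℝ] ℝ →L[ℝ] ℝ) i3 hf2
    refine Eq.trans this ?_
    rw [φ.integral_normed]
    simp
  have hm : L2 (convolution (φ.normed volume) f (ContinuousLinearMap.lsmul ℝ ℝ) volume) := by
    refine l2_of_sq hcont.aestronglyMeasurable ?_
    refine j1.mono' (hcont.norm.pow 2).aestronglyMeasurable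
      (Filter.Eventually.of_forall fun x => ?_)
    rw [Real.norm_of_nonneg (by positivity)]
    exact MO1_jensen φ hf x
  refine ⟨hm, ?_⟩
  refine Real.sqrt_le_sqrt ?_
  rw [← j2]
  exact integral_mono (integrable_sq hm) j1 fun x => MO1_jensen φ hf x

end Pool.Agent.Helper15.SD
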