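import Pool.Agent.Helper77.SD.St
import Pool.Agent.Helper15.SD.M_MO1

/-! # Project SD, module MO2: mollifications converge in `L²` -/

set_option autoImplicit false

namespace Pool.Agent.Helper15.SD

open MeasureTheory Metric Set
open scoped Gradient RealInnerProductSpace ENNReal
open Pool.Agent.Helper77.SD

variable {d : ℕ}

theorem MO2_zero (φ : ContDiffBump (0 : E d)) {g : E d → ℝ} {R : ℝ} (hg : ∀ x, R ≤ ‖x‖ → g x = 0)
    {x : E d} (hx : R + φ.rOut ≤ ‖x‖) :
    convolution (φ.normed volume) g (ContinuousLinearMap.lsmul ℝ ℝ) volume x = 0 := by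
  rw [convolution_def]
  have : ∀ t, (ContinuousLinearMap.lsmul ℝ ℝ : ℝ →L[ℝ] ℝ →L[ℝ] ℝ) (φ.normed volume t) (g (x - t)) = 0 := by
    intro t
    by_cases ht : ‖t‖ < φ.rOut
    · rw [hg, map_zero]
      have := norm_sub_norm_le x t
      linarith
    · have h0 : φ.normed volume t = 0 := by
        have h1 : t ∉ Function.support (φ.normed volume) := by
          rw [φ.support_normed_eq, mem_ball_zero_iff]
          exact ht
        simpa using h1
      rw [h0]
      simp
  simp [this]

theorem MO2_unif {g : E d → ℝ} (hc : Continuous g) (hs : HasCompactSupport g) {ε : ℝ} (hε : 0 < ε) :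
    ∃ r : ℝ, 0 < r ∧ ∀ φ : ContDiffBump (0 : E d), φ.rOut < r →
      nrm (fun x => convolution (φ.normed volume) g (ContinuousLinearMap.lsmul ℝ ℝ) volume x - g x) ≤ ε := by
  obtain ⟨R, hR⟩ := hs.isCompact.isBounded.subset_closedBall (0 : E d)
  set R' : ℝ := max R 0 + 1 with hR'
  have hg0 : ∀ x, R' ≤ ‖x‖ → g x = 0 := by
    intro x hx
    by_contra h
    have h1 : x ∈ tsupport g := subset_tsupport _ h
    have h2 := hR h1
    rw [mem_closedBall_zero_iff] at h2
    have := le_max_left R 0
    linarith
  set S : Set (E d) := closedBall (0 : E d) (R' + 1) with hS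
  set v : ℝ := (volume S).toReal with hv
  have hv0 : 0 ≤ v := ENNReal.toReal_nonneg
  set e' : ℝ := ε / (√v + 1) with he'
  have hsv : 0 ≤ √v := Real.sqrt_nonneg _
  have he0 : 0 < e' := by positivity
  have huc : UniformContinuous g := hs.uniformContinuous_of_continuous hc
  obtain ⟨δ, hδ, hδ2⟩ := Metric.uniformContinuous_iff.1 huc e' he0
  refine ⟨min δ 1, by positivity, fun φ hφ => ?_⟩
  have hφ1 : φ.rOut < δ := hφ.trans_le (min_le_left _ _)
  have hφ2 : φ.rOut < 1 := hφ.trans_le (min_le_right _ _)
  have hd : ∀ x, ‖convolution (φ.normed volume) g (ContinuousLinearMap.lsmul ℝ ℝ) volume x - g x‖ ≤ e' := by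
    intro x
    rw [← dist_eq_norm]
    refine φ.dist_normed_convolution_le hc.aestronglyMeasurable fun y hy => (hδ2 ?_).le
    rw [mem_ball] at hy
    linarith
  have h0 : ∀ x, x ∉ S → convolution (φ.normed volume) g (ContinuousLinearMap.lsmul ℝ ℝ) volume x - g x = 0 := by
    intro x hx
    rw [hS, mem_closedBall_zero_iff, not_le] at hx
    rw [MO2_zero φ hg0 (by linarith), hg0 x (by linarith), sub_zero]
  have h1 : ∫ x, ‖convolution (φ.normed volume) g (ContinuousLinearMap.lsmul ℝ ℝ) volume x - g x‖ ^ 2 ≤
      e' ^ 2 * v := by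
    have hfin : volume S ≠ ⊤ := (isCompact_closedBall _ _).measure_ne_top
    have h2 : ∫ x, S.indicator (fun _ => e' ^ 2) x = e' ^ 2 * v := by
      rw [integral_indicator (isClosed_closedBall.measurableSet), setIntegral_const, smul_eq_mul, mul_comm]
      rfl
    rw [← h2]
    refine integral_mono_of_nonneg (Filter.Eventually.of_forall fun x => by positivity) ?_
      (Filter.Eventually.of_forall fun x => ?_)
    · rw [integrable_indicator_iff (isClosed_closedBall.measurableSet)]
      exact integrableOn_const hfin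
    · by_cases hx : x ∈ S
      · rw [indicator_of_mem hx]
        exact pow_le_pow_left₀ (norm_nonneg _) (hd x) 2
      · rw [indicator_of_notMem hx]
        simp only
        rw [h0 x hx]
        simp
  have h3 : nrm (fun x => convolution (φ.normed volume) g (ContinuousLinearMap.lsmul ℝ ℝ) volume x - g x) ≤
      √(e' ^ 2 * v) := Real.sqrt_le_sqrt h1
  rw [Real.sqrt_mul (sq_nonneg _), Real.sqrt_sq he0.le] at h3
  refine h3.trans ?_
  rw [he', div_mul_eq_mul_div, div_le_iff₀ (by positivity)]
  nlinarith

theorem hMO2 (h : StMO1) : StMO2 := by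
  intro d f hf ε hε
  obtain ⟨g, hgs, hge, hgc, hgm⟩ := hf.exists_hasCompactSupport_eLpNorm_sub_le (by norm_num)
    (ε := ENNReal.ofReal (ε / 4)) (by simpa using hε)
  have hfg : L2 (fun x => f x - g x) := hf.sub hgm
  have h1 : nrm (fun x => f x - g x) ≤ ε / 4 := by
    rw [nrm_eq_eLpNorm hfg]
    exact ENNReal.toReal_le_of_le_ofReal (by positivity) hge
  obtain ⟨r, hr, hr2⟩ := MO2_unif hgc hgs (ε := ε / 4) (by positivity)
  refine ⟨r, hr, fun φ hφ => ?_⟩
  have h2 := hr2 φ hφ
  obtain ⟨h3, h4⟩ := h d φ _ hfg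
  have h5 : L2 (fun x => convolution (φ.normed volume) g (ContinuousLinearMap.lsmul ℝ ℝ) volume x - g x) :=
    (h d φ g hgm).1.sub hgm
  have e : (fun x => convolution (φ.normed volume) f (ContinuousLinearMap.lsmul ℝ ℝ) volume x - f x) =
      fun x => (convolution (φ.normed volume) (fun x => f x - g x) (ContinuousLinearMap.lsmul ℝ ℝ) volume x +
        (convolution (φ.normed volume) g (ContinuousLinearMap.lsmul ℝ ℝ) volume x - g x)) -
          (f x - g x) := by
    funext x
    have i1 := MO1_exists φ (hf.locallyIntegrable (by norm_num)) x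
    have i2 := MO1_exists φ (hgm.locallyIntegrable (by norm_num)) x
    have h6 : convolution (φ.normed volume) (fun x => f x - g x) (ContinuousLinearMap.lsmul ℝ ℝ) volume x =
        convolution (φ.normed volume) f (ContinuousLinearMap.lsmul ℝ ℝ) volume x -
        convolution (φ.normed volume) g (ContinuousLinearMap.lsmul ℝ ℝ) volume x := by
      have h7 : convolution (φ.normed volume) f (ContinuousLinearMap.lsmul ℝ ℝ) volume x -
        convolution (φ.normed volume) g (ContinuousLinearMap.lsmul ℝ ℝ) volume x =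
        (∫ t, φ.normed volume t • f (x - t)) - ∫ t, φ.normed volume t • g (x - t) := rfl
      rw [h7, ← integral_sub i1 i2]
      have h8 : convolution (φ.normed volume) (fun x => f x - g x) (ContinuousLinearMap.lsmul ℝ ℝ) volume x =
        ∫ t, φ.normed volume t • (f (x - t) - g (x - t)) := rfl
      rw [h8]
      simp_rw [smul_sub]
    rw [h6]
    ring
  rw [e]
  have h35 : L2 (fun x => convolution (φ.normed volume) (fun x => f x - g x) (ContinuousLinearMap.lsmul ℝ ℝ) volume x +
        (convolution (φ.normed volume) g (ContinuousLinearMap.lsmul ℝ ℝ) volume x - g x)) := h3.add h5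
  have h9 := nrm_sub_le h35 hfg
  have h10 := nrm_add_le h3 h5
  linarith

end Pool.Agent.Helper15.SD
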