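import Pool.Agent.Helper77.SD.St
import Pool.Agent.Helper15.SD.M_MO2

/-! # Project SD, module TST: `C^∞_c` tests suffice -/

set_option autoImplicit false

namespace Pool.Agent.Helper15.SD

open MeasureTheory Metric Set
open scoped Gradient RealInnerProductSpace ENNReal
open Pool.Agent.Helper77.SD

variable {d : ℕ}

theorem TST_gen {F : Type*} [NormedAddCommGroup F] {a : E d → F} {S : Set (E d)}
    (ha : IntegrableOn a S volume) {B : E d → ℝ} (hB : AEStronglyMeasurable B (volume.restrict S))
    (h0 : ∀ x, x ∉ S → B x = 0) {C : ℝ} (hb : ∀ x, |B x| ≤ C * ‖a x‖) :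
    Integrable B volume ∧ |∫ x, B x| ≤ C * ∫ x in S, ‖a x‖ := by
  have h1 : IntegrableOn B S volume :=
    (ha.norm.const_mul C).mono' hB (Filter.Eventually.of_forall hb)
  have h2 : Integrable B volume := by
    rw [← integrableOn_iff_integrable_of_support_subset (s := S)]
    · exact h1
    · intro x hx
      by_contra h
      exact hx (h0 x h)
  have h3 : ∫ x, B x = ∫ x in S, B x := (setIntegral_eq_integral_of_forall_compl_eq_zero h0).symm
  refine ⟨h2, ?_⟩
  rw [h3, ← integral_const_mul]
  refine (abs_integral_le_integral_abs).trans ?_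
  exact integral_mono_of_nonneg (Filter.Eventually.of_forall fun x => abs_nonneg _)
    (ha.norm.const_mul C) (Filter.Eventually.of_forall hb)

theorem TST_fderiv (φ : ContDiffBump (0 : E d)) {ψ : E d → ℝ} (hψ : ContDiff ℝ 1 ψ)
    (hc : HasCompactSupport ψ) (x : E d) :
    fderiv ℝ (convolution (φ.normed volume) ψ (ContinuousLinearMap.lsmul ℝ ℝ) volume) x =
      convolution (φ.normed volume) (fderiv ℝ ψ) (ContinuousLinearMap.lsmul ℝ ℝ) volume x := by
  have h1 := (hc.hasFDerivAt_convolution_right (𝕜 := ℝ) (ContinuousLinearMap.lsmul ℝ ℝ)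
    (f := φ.normed volume) (μ := volume) (φ.continuous_normed.locallyIntegrable (μ := volume)) hψ x).fderiv
  rw [h1, convolution_def, convolution_def]
  congr 1

theorem hTST : StTST := by
  intro d a b ha hb h ψ hψ hc
  obtain ⟨R, hR⟩ := hc.isCompact.isBounded.subset_closedBall (0 : E d)
  set R' : ℝ := max R 0 + 1 with hR'
  have hg0 : ∀ x, R' ≤ ‖x‖ → ψ x = 0 := by
    intro x hx
    by_contra h
    have h1 : x ∈ tsupport ψ := subset_tsupport _ h
    have h2 := hR h1
    rw [mem_closedBall_zero_iff] at h2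
    have := le_max_left R 0
    linarith
  have hg1 : ∀ x, R' ≤ ‖x‖ → fderiv ℝ ψ x = 0 := by
    intro x hx
    by_contra h
    have h1 : x ∈ tsupport (fderiv ℝ ψ) := subset_tsupport _ h
    have h2 := hR (tsupport_fderiv_subset ℝ h1)
    rw [mem_closedBall_zero_iff] at h2
    have := le_max_left R 0
    linarith
  set S : Set (E d) := ball (0 : E d) (R' + 1) with hS
  have haS := ha (R' + 1)
  have hbS := hb (R' + 1)
  rw [← hS] at haS hbS
  set K : ℝ := (∫ x in S, ‖a x‖) + ∫ x in S, ‖b x‖ with hK
  have hK0 : 0 ≤ K := add_nonneg (integral_nonneg fun _ => norm_nonneg _) (integral_nonneg fun _ => norm_nonneg _)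
  have hcg : Continuous (∇ ψ) := continuous_grad hψ
  have hcf : Continuous (fderiv ℝ ψ) := hψ.continuous_fderiv (by norm_num)
  have hgr : ∀ (w : E d → ℝ) (x : E d), fderiv ℝ w x = 0 → ∇ w x = 0 := by
    intro w x hx
    simp [gradient, hx]
  have key : ∀ ε : ℝ, 0 < ε → |(∫ x, ⟪a x, ∇ ψ x⟫) - ∫ x, b x * ψ x| ≤ ε * K := by
    intro ε hε
    obtain ⟨δ1, hδ1, hδ1'⟩ := Metric.uniformContinuous_iff.1 (hc.uniformContinuous_of_continuous hψ.continuous) ε hε
    obtain ⟨δ2, hδ2, hδ2'⟩ := Metric.uniformContinuous_iff.1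
      ((hc.fderiv (𝕜 := ℝ)).uniformContinuous_of_continuous hcf) ε hε
    set r : ℝ := min (min δ1 δ2) 1 with hr
    have hr0 : 0 < r := by positivity
    let φ : ContDiffBump (0 : E d) := ⟨r / 2, r, by positivity, by linarith⟩
    have hφr : φ.rOut = r := rfl
    set w : E d → ℝ := convolution (φ.normed volume) ψ (ContinuousLinearMap.lsmul ℝ ℝ) volume with hw
    have hr1 : r ≤ δ1 := (min_le_left _ _).trans (min_le_left _ _)
    have hr2 : r ≤ δ2 := (min_le_left _ _).trans (min_le_right _ _)
    have hr3 : r ≤ 1 := min_le_right _ _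
    have hwd : ∀ x, ‖w x - ψ x‖ ≤ ε := by
      intro x
      rw [← dist_eq_norm]
      refine φ.dist_normed_convolution_le hψ.continuous.aestronglyMeasurable fun y hy => (hδ1' ?_).le
      rw [mem_ball, hφr] at hy
      linarith
    have hwg : ∀ x, ‖∇ w x - ∇ ψ x‖ ≤ ε := by
      intro x
      have e1 : ∇ w x - ∇ ψ x = (InnerProductSpace.toDual ℝ (E d)).symm (fderiv ℝ w x - fderiv ℝ ψ x) := by
        rw [map_sub]; rfl
      rw [e1, LinearIsometryEquiv.norm_map, hw, TST_fderiv φ hψ hc, ← dist_eq_norm]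
      refine φ.dist_normed_convolution_le hcf.aestronglyMeasurable fun y hy => (hδ2' ?_).le
      rw [mem_ball, hφr] at hy
      linarith
    have hw0 : ∀ x, x ∉ S → w x = 0 := by
      intro x hx
      rw [hS, mem_ball_zero_iff, not_lt] at hx
      exact MO2_zero φ hg0 (by rw [hφr]; linarith)
    have hw1 : ∀ x, x ∉ S → ∇ w x = 0 := by
      intro x hx
      apply hgr
      rw [hw, TST_fderiv φ hψ hc, convolution_def]
      rw [hS, mem_ball_zero_iff, not_lt] at hx
      have : ∀ t, (ContinuousLinearMap.lsmul ℝ ℝ : ℝ →L[ℝ] (E d →L[ℝ] ℝ) →L[ℝ] (E d →L[ℝ] ℝ)) (φ.normed volume t)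
          (fderiv ℝ ψ (x - t)) = 0 := by
        intro t
        by_cases ht : ‖t‖ < φ.rOut
        · rw [hg1, map_zero]
          have := norm_sub_norm_le x t
          rw [hφr] at ht
          linarith
        · have h0 : φ.normed volume t = 0 := by
            have h1 : t ∉ Function.support (φ.normed volume) := by
              rw [φ.support_normed_eq, mem_ball_zero_iff]
              exact ht
            simpa using h1
          rw [h0]
          simp
      simp [this]
    have hwcont : ContDiff ℝ (⊤ : ℕ∞) w :=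
      φ.hasCompactSupport_normed.contDiff_convolution_left _ φ.contDiff_normed
        hψ.continuous.locallyIntegrable
    have hwc : HasCompactSupport w := by
      refine HasCompactSupport.of_support_subset_isCompact (isCompact_closedBall (0 : E d) (R' + 1)) ?_
      intro x hx
      by_contra h
      exact hx (hw0 x fun h' => h (ball_subset_closedBall h'))
    have hwcont1 : ContDiff ℝ 1 w := hwcont.of_le (by exact_mod_cast le_top)
    have hcgw : Continuous (∇ w) := continuous_grad hwcont1
    have e0 := h w hwcont hwc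
    have hψ1 : ∀ x, x ∉ S → ∇ ψ x = 0 := by
      intro x hx
      rw [hS, mem_ball_zero_iff, not_lt] at hx
      exact hgr _ _ (hg1 x (by linarith))
    have hψ0 : ∀ x, x ∉ S → ψ x = 0 := by
      intro x hx
      rw [hS, mem_ball_zero_iff, not_lt] at hx
      exact hg0 x (by linarith)
    obtain ⟨C1, hC1⟩ := (compact_grad hc).exists_bound_of_continuous hcg
    obtain ⟨C2, hC2⟩ := hc.exists_bound_of_continuous hψ.continuous
    have i1 : Integrable (fun x => ⟪a x, ∇ ψ x⟫) volume := by
      refine (TST_gen haS (C := C1) ?_ ?_ ?_).1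
      · exact haS.1.inner hcg.aestronglyMeasurable
      · intro x hx
        rw [hψ1 x hx, inner_zero_right]
      · intro x
        refine (abs_real_inner_le_norm _ _).trans ?_
        rw [mul_comm]
        exact mul_le_mul_of_nonneg_right (hC1 x) (norm_nonneg _)
    have i2 : Integrable (fun x => b x * ψ x) volume := by
      refine (TST_gen hbS (C := C2) ?_ ?_ ?_).1
      · exact hbS.1.mul hψ.continuous.aestronglyMeasurable
      · intro x hx
        rw [hψ0 x hx, mul_zero]
      · intro x
        rw [abs_mul, mul_comm]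
        exact mul_le_mul_of_nonneg_right (hC2 x) (abs_nonneg _)
    obtain ⟨i3, j3⟩ := TST_gen haS (C := ε) (B := fun x => ⟪a x, ∇ w x - ∇ ψ x⟫)
      (haS.1.inner (hcgw.sub hcg).aestronglyMeasurable)
      (fun x hx => by rw [hψ1 x hx, hw1 x hx, sub_zero, inner_zero_right])
      (fun x => by
        refine (abs_real_inner_le_norm _ _).trans ?_
        rw [mul_comm]
        exact mul_le_mul_of_nonneg_right (hwg x) (norm_nonneg _))
    obtain ⟨i4, j4⟩ := TST_gen hbS (C := ε) (B := fun x => b x * (w x - ψ x))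
      (hbS.1.mul (hwcont1.continuous.sub hψ.continuous).aestronglyMeasurable)
      (fun x hx => by rw [hψ0 x hx, hw0 x hx, sub_zero, mul_zero])
      (fun x => by
        rw [abs_mul, mul_comm]
        exact mul_le_mul_of_nonneg_right (hwd x) (abs_nonneg _))
    have e1 : ∫ x, ⟪a x, ∇ w x⟫ = (∫ x, ⟪a x, ∇ ψ x⟫) + ∫ x, ⟪a x, ∇ w x - ∇ ψ x⟫ := by
      rw [← integral_add i1 i3]
      congr 1
      funext x
      rw [inner_sub_right]
      ring
    have e2 : ∫ x, b x * w x = (∫ x, b x * ψ x) + ∫ x, b x * (w x - ψ x) := by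
      rw [← integral_add i2 i4]
      congr 1
      funext x
      ring
    rw [e1, e2] at e0
    have e3 : (∫ x, ⟪a x, ∇ ψ x⟫) - ∫ x, b x * ψ x =
        (∫ x, b x * (w x - ψ x)) - ∫ x, ⟪a x, ∇ w x - ∇ ψ x⟫ := by linarith
    rw [e3]
    refine (abs_sub _ _).trans ?_
    rw [hK, mul_add]
    linarith
  by_contra hne
  have hpos : 0 < |(∫ x, ⟪a x, ∇ ψ x⟫) - ∫ x, b x * ψ x| := abs_pos.2 (sub_ne_zero.2 hne)
  set D := |(∫ x, ⟪a x, ∇ ψ x⟫) - ∫ x, b x * ψ x| with hD
  have h1 := key (D / (2 * (K + 1))) (by positivity)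
  rw [div_mul_eq_mul_div, le_div_iff₀ (by positivity)] at h1
  nlinarith

end Pool.Agent.Helper15.SD
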